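import Pool.Agent.MP_5d9b3c_ag.H48G.One

/-! The complex numbers as an algebraic closure; the functional equation; absolute values. -/

namespace Pool.Agent.MP_5d9b3c_ag.P3

open MvPolynomial H72

open Cardinal in
theorem exists_alg (p : ℕ) [Fact p.Prime] :
    ∃ _ : Algebra ℚ_[p] ℂ, Algebra.IsAlgebraic ℚ_[p] ℂ := by
  have h1 : #ℚ_[p] ≤ 𝔠 := mk_quotient_le.trans ((mk_subtype_le _).trans (by simp))
  have h3 : #(AlgebraicClosure ℚ_[p]) = 𝔠 := le_antisymm
    ((Algebra.IsAlgebraic.cardinalMk_le_max ℚ_[p] _).trans (max_le h1 aleph0_le_continuum))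
    ((continuum_le_cardinal_of_nontriviallyNormedField ℚ_[p]).trans
      (mk_le_of_injective (algebraMap ℚ_[p] (AlgebraicClosure ℚ_[p])).injective))
  obtain ⟨e⟩ := IsAlgClosed.ringEquiv_of_equiv_of_charZero (h3 ▸ aleph0_lt_continuum)
    (Cardinal.eq.1 (h3.trans Cardinal.mk_complex.symm))
  let _ : Algebra ℚ_[p] ℂ := (e.toRingHom.comp (algebraMap _ _)).toAlgebra
  exact ⟨inferInstance, (AlgEquiv.ofRingEquiv (f := e) fun _ => rfl).isAlgebraic⟩

theorem isBF_rename {σ τ : Type} (e : σ ≃ τ) {g : MvPolynomial σ ℂ} {b : Polynomial ℂ}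
    (h : IsBFunction g b) : IsBFunction (rename e g) b := by
  obtain ⟨d, P, hP, h⟩ := h
  let φ := (renameEquiv ℂ e).toLinearEquiv.conjAlgEquiv ℂ
  have h1 : ∀ (A : Module.End ℂ (MvPolynomial σ ℂ)) x, φ A (rename e x) = rename e (A x) :=
    fun A x => congrArg (fun y => rename e (A y)) ((renameEquiv ℂ e).symm_apply_apply x)
  have h2 : ∀ A B, (∀ x, B (rename e x) = rename e (A x)) → φ A = B := fun A B hB =>
    LinearMap.ext fun y => by
      obtain ⟨x, rfl⟩ := (renameEquiv ℂ e).surjective y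
      exact (h1 A x).trans (hB x).symm
  refine ⟨d, fun t => φ (P t), fun t => ?_, fun m => ?_⟩
  · refine (Algebra.adjoin_le (S := (weyl τ).comap φ) ?_) (hP t)
    rintro _ (⟨i, rfl⟩ | ⟨i, rfl⟩)
    · exact Algebra.subset_adjoin (Or.inl ⟨e i, (h2 _ _ fun x => by simp).symm⟩)
    · exact Algebra.subset_adjoin
        (Or.inr ⟨e i, (h2 _ _ fun x => pderiv_rename e.injective i x).symm⟩)
  · simpa only [← map_pow, h1, map_smul, map_sum] using congrArg (rename e) (h m)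

theorem isBS_of {σ : Type} {g : MvPolynomial σ ℂ} {b : Polynomial ℂ} (h : IsBFunction g b) :
    MP_ee8c61_ag.H10.IsBS ![g] b :=
  H48G.isBS_one _ b (isBF_rename (Equiv.emptySum (Fin 0) σ).symm h)

theorem norm_eq {T : ℂ} {p a k : ℕ} (ha : 0 < a) (h : T ^ a = (p : ℂ) ^ (k + 1)) :
    ‖T‖ = (p : ℝ) ^ ((((k + 1) / a : ℚ) : ℝ)) := by
  have h1 : ‖T‖ ^ a = (p : ℝ) ^ (k + 1) := by simpa using congrArg norm h
  rw [← Real.pow_rpow_inv_natCast (norm_nonneg T) ha.ne', h1, ← Real.rpow_natCast,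
    ← Real.rpow_mul (Nat.cast_nonneg p)]
  push_cast
  rfl

theorem log_eq {T : ℂ} {p : ℕ} (hp : p.Prime) {la : ℚ} (h : ‖T‖ = (p : ℝ) ^ (la : ℝ)) :
    ((-(Real.log ‖T‖ / Real.log p) : ℝ) : ℂ) = -(la : ℂ) := by
  have h1 : (1 : ℝ) < p := Nat.one_lt_cast.2 hp.one_lt
  rw [h, Real.log_rpow (one_pos.trans h1), mul_div_cancel_right₀ _ (Real.log_pos h1).ne']
  simp

theorem root_ne {S : PowerSeries ℚ} {A B : Polynomial ℚ} (hAB : IsCoprime A B)
    (hP : (B : PowerSeries ℚ) * S = A) {T : ℂ} (hT : Polynomial.aeval T B = 0) : T ≠ 0 := by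
  rintro rfl
  have h1 : B.coeff 0 = 0 := by
    rwa [← Polynomial.coeff_zero_eq_aeval_zero', map_eq_zero] at hT
  have h2 := congrArg PowerSeries.constantCoeff hP
  rw [map_mul, Polynomial.constantCoeff_coe, Polynomial.constantCoeff_coe, h1, zero_mul] at h2
  obtain ⟨u, v, h⟩ := hAB
  simpa [h1, ← h2] using congrArg (Polynomial.coeff · 0) h

end Pool.Agent.MP_5d9b3c_ag.P3
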