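import Pool.Agent.MP_ee8c61_ag.M3.FDefs
import Pool.Agent.MP_5d9b3c_ag.P3T.Defs

/-!
Semilinear actions of the Galois group of the complex numbers over a subfield: definitions.
-/

namespace Pool.Agent.MP_5d9b3c_ag.P3

open MP_ee8c61_ag MP_ee8c61_ag.M3 MP_ee8c61_ag.M3RESID P3T
open Pool.Agent.MP_96693b_ag.RS (Loc LocOf)

noncomputable section

/-- The Galois group. -/
abbrev Gm (F : Type) [Field F] [Algebra F ℂ] : Type := ℂ ≃ₐ[F] ℂ

/-- A continuous semilinear action. -/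
structure GA (F L : Type) [Field F] [Algebra F ℂ] [Field L] [Algebra ℂ L] where
  ρ : Gm F →* RingAut L
  semi : ∀ σ c, ρ σ (algebraMap ℂ L c) = algebraMap ℂ L (σ c)
  cont : ∀ x, ∃ S : Finset ℂ, ∀ σ : Gm F, (∀ c ∈ S, σ c = c) → ρ σ x = x

namespace GA

variable {F L : Type} [Field F] [Algebra F ℂ] [Field L] [Algebra ℂ L] (A : GA F L)

/-- The fixed field. -/
def fix : Subfield L where
  carrier := {x | ∀ σ, A.ρ σ x = x}
  mul_mem' := fun ha hb σ => by rw [map_mul, ha σ, hb σ]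
  one_mem' := fun σ => map_one _
  add_mem' := fun ha hb σ => by rw [map_add, ha σ, hb σ]
  zero_mem' := fun σ => map_zero _
  neg_mem' := fun ha σ => by rw [map_neg, ha σ]
  inv_mem' := fun a ha σ => by rw [map_inv₀, ha σ]

theorem mem_fix {x : L} : x ∈ A.fix ↔ ∀ σ, A.ρ σ x = x := Iff.rfl

theorem inv_ap (σ : Gm F) (x : L) : A.ρ σ⁻¹ (A.ρ σ x) = x := by
  rw [← RingAut.mul_apply, ← map_mul, inv_mul_cancel, map_one, RingAut.one_apply]

theorem ap_inv (σ : Gm F) (x : L) : A.ρ σ (A.ρ σ⁻¹ x) = x := by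
  simpa using A.inv_ap σ⁻¹ x

theorem smul (σ : Gm F) (c : ℂ) (x : L) : A.ρ σ (c • x) = σ c • A.ρ σ x := by
  rw [Algebra.smul_def, Algebra.smul_def, map_mul, A.semi]

/-- The semilinear automorphism of an element of the group. -/
def si (σ : Gm F) : SI L L := ⟨σ.toRingEquiv, A.ρ σ, A.semi σ⟩

@[simp] theorem si_e (σ : Gm F) (g : L) : (A.si σ).e g = A.ρ σ g := rfl
@[simp] theorem si_c (σ : Gm F) (c : ℂ) : (A.si σ).c c = σ c := rfl

theorem si_one : A.si 1 = SI.refl L := SI.ext' fun g => by simp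

theorem si_mul (σ τ : Gm F) : A.si (σ * τ) = (A.si τ).trans (A.si σ) := SI.ext' fun g => by simp

/-- The action by semilinear automorphisms. -/
def act : Act (Gm F) (fun σ => σ.toRingEquiv) L := ⟨A.si, fun _ => rfl, A.si_one, A.si_mul⟩

theorem si_inv (σ : Gm F) : A.si σ⁻¹ = (A.si σ).symm := A.act.inv σ

/-- A point that is fixed by the group. -/
def FixL (x : Loc L) : Prop := ∀ σ, (A.si σ).loc x = x

/-- An invariant vector field. -/
def InvV (X : VF L) : Prop := ∀ σ g, A.ρ σ (X g) = X (A.ρ σ g)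

/-- An invariant volume form. -/
def InvD (d : Dv L) : Prop := ∀ σ X, d.δ ((A.si σ).vf X) = A.ρ σ (d.δ X)

/-- An invariant valuation. -/
def InvO (o : DV L) : Prop := ∀ σ g, o.v (A.ρ σ g) = o.v g

/-- A stable set. -/
def Stb (S : Set L) : Prop := ∀ σ, ∀ s ∈ S, A.ρ σ s ∈ S

/-- The place `P` is compatible with the actions. -/
def Cpt {k : Type} [Field k] [Algebra ℂ k] (B : GA F k) (P : Pl L k) : Prop :=
  A.InvO P.o ∧ ∀ σ, ∀ g ∈ P.o.F 0, B.ρ σ (P.π g) = P.π (A.ρ σ g)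

variable {A}

theorem invV_iff {X : VF L} : A.InvV X ↔ ∀ σ, (A.si σ).vf X = X :=
  forall_congr' fun σ => ⟨fun h => (A.si σ).vf_ext fun g => by rw [SI.vf_e]; exact h g,
    fun h g => by rw [← si_e, ← SI.vf_e, h, si_e]⟩

theorem invD_iff {d : Dv L} : A.InvD d ↔ ∀ σ, (A.si σ).dd d = d :=
  forall_congr' fun σ => ⟨fun h => dd_ext fun X => by
      obtain ⟨X, rfl⟩ := (A.si σ).vf_surj X
      rw [SI.dd_vf, h, si_e],
    fun h X => by rw [← si_e, ← SI.dd_vf, h]⟩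

theorem invO_iff {o : DV L} : A.InvO o ↔ ∀ σ, (A.si σ).dv o = o :=
  forall_congr' fun σ => ⟨fun h => dv_ext ((A.si σ).all.2 fun g => by rw [SI.dv_e, si_e, h]),
    fun h g => by rw [← si_e, ← (A.si σ).dv_e o g, h]⟩

section

variable {k : Type} [Field k] [Algebra ℂ k] {B : GA F k} {P : Pl L k}

theorem cpt_iff : A.Cpt B P ↔ ∀ σ, Cp (A.si σ) (B.si σ) P P :=
  ⟨fun h σ => ⟨(invO_iff.1 h.1 σ).symm, fun g hg => (h.2 σ g hg).symm⟩,
    fun h => ⟨invO_iff.2 fun σ => (h σ).o.symm, fun σ g hg => ((h σ).π g hg).symm⟩⟩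

variable (A P)

/-- The action on the residue field of an invariant place. -/
def res (h : A.InvO P.o) : GA F k where
  ρ := MonoidHom.mk' (fun σ => ((A.act.res P fun σ => (invO_iff.1 h σ).symm).act σ).e)
    fun σ τ => by rw [Act.mul]; rfl
  semi σ c := by rw [MonoidHom.mk'_apply, SI.map, Act.c]; rfl
  cont x := by
    obtain ⟨g, hg, rfl⟩ := P.surj x
    obtain ⟨S, hS⟩ := A.cont g
    refine ⟨S, fun σ hσ => ?_⟩
    rw [MonoidHom.mk'_apply, ← (A.act.res_cp P _ σ).π g hg]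
    exact congrArg P.π (hS σ hσ)

theorem res_cpt (h : A.InvO P.o) : A.Cpt (A.res P h) P :=
  ⟨h, fun σ g hg => ((A.act.res_cp P (fun σ => (invO_iff.1 h σ).symm) σ).π g hg).symm⟩

end

variable (A)

/-- The frame, with its field and its variable defined over `F`, such that `u` is a monomial
modulo powers of exponent `N` on the generic fibre. -/
structure StarP (d : Dv L) (v : VF L) (b : ℂ) (X : Set L) (u : L) (N : ℕ) (v' : VF L) (y : L)
    (g : ℚ) : Prop where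
  g0 : g ≠ 0
  y0 : y ≠ 0
  ex : v - v' ∈ d.Ex
  eig : (g : L) * v' y = algebraMap ℂ L b * y
  gen : ∀ z : L, z ∈ Subfield.closure ({c | v' c = 0} ∪ {y})
  base : ∀ c ∈ X, v' c = 0
  inv : A.InvV v'
  fix : y ∈ A.fix
  two : ∀ o : DV L, (∃ π, o.v π = 1) → (∀ c, v' c = 0 → c ∈ o.F 0) → o.v y = 0 → (N : ℤ) ∣ o.v u

/-- The surface datum is defined over `F`. -/
structure Stab (D : SD L) : Prop where
  x : ∀ l, D.x l ∈ A.fix
  S0 : A.Stb D.S0
  S1 : A.Stb D.S1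
  Sj : ∀ j, A.Stb (D.Sj j)
  d : A.InvD D.d
  v : A.InvV D.v
  b : ∀ σ : Gm F, σ D.b = D.b

end GA

section

variable {L : Type} [Field L] [Algebra ℂ L]

/-- On ordinary curves the order of `u` is divisible by `N`. -/
def Ord (D : SD L) (u : L) (N : ℕ) : Prop := ∀ Γ, Cv D.x Γ → ¬Null D.x D.S1 Γ →
  (∀ j, D.β j Γ = 0) → D.ex Γ = 1 → (N : ℤ) ∣ Γ.v u

end

/-- A statement about all surface data that are defined over `F`. -/
def AllP (p : ∀ {F L : Type} [Field F] [Algebra F ℂ] [Field L] [Algebra ℂ L], GA F L → SD L → Prop) :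
    Prop :=
  ∀ (F L : Type) [Field F] [Algebra F ℂ] [Algebra.IsAlgebraic F ℂ] [Field L] [Algebra ℂ L]
    (A : GA F L) (D : SD L) (u : L) (N : ℕ), D.OK → A.Stab D → Ord D u N → p A D →
    ∃ v' y g, A.StarP D.d D.v D.b (Set.range D.x) u N v' y g

/-- A pencil that is defined over `F`. -/
def Pcl {F L : Type} [Field F] [Algebra F ℂ] [Field L] [Algebra ℂ L] (A : GA F L) (D : SD L) :
    Prop := ∃ φ ∈ A.fix, (∃ X : VF L, X φ ≠ 0) ∧
  ∀ Γ, Cv D.x Γ → Null D.x D.S1 Γ → NC Γ φ → D.ex Γ = D.α Γ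

def LF1 : Prop := AllP fun _ D => 0 < D.t0 ∧ ¬D.Pt
def LF2 : Prop := AllP fun A D => 0 < D.t0 ∧ D.Pt ∧ Pcl A D
def LF3 : Prop := AllP fun _ D => D.t0 = 0 ∧ D.CC ∧ D.Zc ∧ ¬D.Pt
def LVc : Prop := AllP fun _ D => 0 < D.t0 ∧ D.Pt ∧ D.One
def LVz : Prop := AllP fun _ D => D.t0 = 0 ∧ D.CC ∧ D.Zc ∧ D.Pt

end

end Pool.Agent.MP_5d9b3c_ag.P3
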