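import Pool.Agent.MP_5d9b3c_ag.H72.Defs

/-! Adding variables changes neither the series nor the functional equation. -/

namespace Pool.Agent.MP_5d9b3c_ag.P3

open MvPolynomial H72

theorem isBF_inj {σ τ : Type} {e : σ → τ} (he : e.Injective) {g : MvPolynomial σ ℂ}
    {b : Polynomial ℂ} (h : IsBFunction g b) : IsBFunction (rename e g) b := by
  obtain ⟨d, P, hP, h⟩ := h
  have h1 : ∀ A ∈ weyl σ, ∃ B ∈ weyl τ, ∀ x, B (rename e x) = rename e (A x) := fun A hA => by
    induction hA using Algebra.adjoin_induction with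
    | mem A hA =>
      rcases hA with ⟨i, rfl⟩ | ⟨i, rfl⟩
      · exact ⟨_, Algebra.subset_adjoin (Or.inl ⟨e i, rfl⟩), fun x => by simp⟩
      · exact ⟨_, Algebra.subset_adjoin (Or.inr ⟨e i, rfl⟩), fun x => pderiv_rename he i x⟩
    | algebraMap c => exact ⟨_, algebraMap_mem _ c, fun x => by simp⟩
    | add A A' _ _ h2 h3 =>
      obtain ⟨B, h4, h5⟩ := h2
      obtain ⟨B', h6, h7⟩ := h3
      exact ⟨B + B', add_mem h4 h6, fun x => by simp [h5, h7]⟩
    | mul A A' _ _ h2 h3 =>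
      obtain ⟨B, h4, h5⟩ := h2
      obtain ⟨B', h6, h7⟩ := h3
      exact ⟨B * B', mul_mem h4 h6, fun x => by simp [h5, h7]⟩
  choose B h2 h3 using fun t => h1 _ (hP t)
  exact ⟨d, B, h2, fun m => by
    simpa only [← map_pow, h3, map_smul, map_sum] using congrArg (rename e) (h m)⟩

theorem poincare_inl {σ ρ τ : Type} [Fintype σ] [Fintype ρ] [Fintype τ] (e : σ ⊕ ρ ≃ τ)
    (f : MvPolynomial σ ℤ) {p : ℕ} (hp : p ≠ 0) :
    poincare (rename (e ∘ Sum.inl) f) p = poincare f p := by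
  ext m
  have h1 : Nat.card {x : τ → ZMod (p ^ m) // aeval x (rename (e ∘ Sum.inl) f) = 0} =
      Nat.card ({x : σ → ZMod (p ^ m) // aeval x f = 0} × (ρ → ZMod (p ^ m))) :=
    Nat.card_congr ((((e.symm.arrowCongr (Equiv.refl _)).trans
      (Equiv.sumArrowEquivProdArrow _ _ _)).subtypeEquiv fun x => by
        rw [aeval_rename]; rfl).trans Equiv.prodSubtypeFstEquivSubtypeProd)
  have h2 : (p : ℚ) ≠ 0 := Nat.cast_ne_zero.2 hp
  rw [poincare, poincare, PowerSeries.coeff_mk, PowerSeries.coeff_mk, h1, Nat.card_prod,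
    Nat.card_fun, Nat.card_zmod, ← Fintype.card_congr e, Fintype.card_sum,
    Nat.card_eq_fintype_card (α := ρ)]
  push_cast
  rw [pow_add, mul_inv, mul_pow, ← pow_mul (p : ℚ) m, mul_comm m, pow_mul,
    inv_pow (_ ^ Fintype.card ρ)]
  field_simp

end Pool.Agent.MP_5d9b3c_ag.P3
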