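import Pool.Agent.MP_5d9b3c_ag.P3T.KK
import Pool.Agent.MP_ee8c61_ag.M3B1.Spec

/-! Models that are stable under the Galois group: the statements. -/

namespace Pool.Agent.MP_5d9b3c_ag.P3

open MP_ee8c61_ag MP_ee8c61_ag.M3 P3T
open Pool.Agent.MP_96693b_ag.RS (Loc LocOf)

noncomputable section

variable (F : Type) [Field F] [Algebra F ℂ] {N : ℕ}

/-- The polynomial has coefficients in `F`. -/
def FxP (g : Po N) : Prop := ∀ σ : Gm F, MvPolynomial.map (σ : ℂ →+* ℂ) g = g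

/-- The model `M` of `f` is the blow-up of `W`, and it is defined over `F`. -/
structure StM (f : Po N) (W : Set (Po N)) (M : Mod N) : Prop where
  ok : M.OK f
  fx : ∀ w ∈ W, FxP F w
  good : M3B1.Good f W
  pts : ∀ Q, Q ∈ M.pts ↔ ∃ w ∈ W, LocOf (M3B1.ch W w) Q
  perm : ∀ (σ : Gm F) j, ∃ j', M.v j' = ((gaK F N).si σ).dv (M.v j)
  sep : ∀ Q ∈ M.pts, (gaK F N).FixL Q → ∀ j, M.On Q j → (gaK F N).InvO (M.v j)
  amp : ∃ w, M.Amp w ∧ ∀ (σ : Gm F) j j', M.v j' = ((gaK F N).si σ).dv (M.v j) → w j' = w j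

/-- Stable models that principalise a finite set of polynomials. -/
def SB1R : Prop := ∀ (F : Type) [Field F] [Algebra F ℂ] [Algebra.IsAlgebraic F ℂ] (N : ℕ)
  (f : Po N) (G : Finset (Po N)), f ≠ 0 → FxP F f → (∀ g ∈ G, FxP F g) → (∃ r, f ^ r ∈ G) →
  ∃ W M, StM F f W M ∧ ∃ c, ∀ T : Finset (KK N), (T : Set (KK N)) = ip N '' G → M.Gens c T

/-- Stable dominating models that principalise finitely many finite sets of polynomials. -/
def SB1G : Prop := ∀ (F : Type) [Field F] [Algebra F ℂ] [Algebra.IsAlgebraic F ℂ] (N : ℕ)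
  (f : Po N) (W : Set (Po N)) (M : Mod N) (κ : Type) [Fintype κ] (G : κ → Finset (Po N)),
  FxP F f → StM F f W M → (∀ i, ∀ g ∈ G i, FxP F g) → (∀ i, ∃ r, f ^ r ∈ G i) →
  ∃ W' M', StM F f W' M' ∧ Nonempty (Dom M' M) ∧
    ∀ i, ∃ c, ∀ T : Finset (KK N), (T : Set (KK N)) = ip N '' G i → M'.Gens c T

end

end Pool.Agent.MP_5d9b3c_ag.P3
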