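import Pool.Agent.MP_5d9b3c_ag.P3.Top
import Pool.Agent.MP_5d9b3c_ag.P3O.Asm
import Pool.Agent.MP_5d9b3c_ag.P3F.All
import Pool.Agent.MP_5d9b3c_ag.P3V.All
import Pool.Agent.MP_ee8c61_ag.M3.Final

/-! The invariant frame of an invariant divisor of exponent zero. -/

namespace Pool.Agent.MP_5d9b3c_ag.P3

open Pool.Agent.MP_ee8c61_ag
open M3 M3RESID P3T P3G
open M3E (eout)

theorem star (F : Type) [Field F] [Algebra F ℂ] [Algebra.IsAlgebraic F ℂ] : SSTAR F := by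
  intro f la b β Q W M o H G hf hM ho hO
  obtain ⟨D, d1, d2, d3, d4, d5, d6, d7, d8⟩ := P3O.orb eout (kout_of eout) frows (M3L.sr1 eout)
    (M3FG.sbox eout (M3S4.s4_of eout.bas (M3CP.cmp_of eout M3S.thmFnd) M3S.thmDESC)) H hM.ok ho
    hf G.v G.ev hM.perm hM.amp hO
  rw [Frs, ← d4, ← d5]
  refine ⟨_, _, d6, d7, d2.d, d2.v, fun t ht => ?_⟩
  by_cases hP : D.Pt
  · rcases d8 with ⟨h1, h2⟩ | ⟨h1, h2, h3⟩
    · exact (h2 hP).elim (fun h => P3F.lf2 F _ _ D _ _ d1 d2 (d3 t ht) ⟨h1, hP, h⟩) fun h =>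
        P3V.lvc F _ _ D _ _ d1 d2 (d3 t ht) ⟨h1, hP, h⟩
    · exact P3V.lvz F _ _ D _ _ d1 d2 (d3 t ht) ⟨h1, h2, h3, hP⟩
  · rcases d8 with ⟨h1, -⟩ | ⟨h1, h2, h3⟩
    · exact P3F.lf1 F _ _ D _ _ d1 d2 (d3 t ht) ⟨h1, hP⟩
    · exact P3F.lf3 F _ _ D _ _ d1 d2 (d3 t ht) ⟨h1, h2, h3, hP⟩

end Pool.Agent.MP_5d9b3c_ag.P3
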