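import Pool.Agent.MP_5d9b3c_ag.P3.Pre
import Pool.Agent.MP_5d9b3c_ag.P3.Defs
import Pool.Agent.MP_5d9b3c_ag.P3D.Igu
import Pool.Agent.MP_5d9b3c_ag.P3G.Hyp

/-! The theorem from the statements of the blocks. -/

namespace Pool.Agent.MP_5d9b3c_ag.P3

open Pool.Agent.MP_ee8c61_ag
open M3 M3RESID P3T P3G P3D P3K H72 MvPolynomial
open H59 (PX)

noncomputable section

variable (F : Type) [Field F] [Algebra F ℂ]

/-- The invariant divisor `o` has invariant frames. -/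
def Frs (f : Po 3) (la : ℚ) (b : Polynomial ℂ) (β : Fin 3 → PX 3 (KK 3)) (M : Mod 3) (o : M.J)
    (hO : (gaK F 3).InvO (M.v o)) : Prop :=
  ∃ (e : Dv (M.v o).kf) (v : VF (M.v o).kf),
    (M.v o).pl.RsD (dvf f la) e ∧ (M.v o).pl.Res (dvf f la) (bf la β) v ∧
    ((gaK F 3).res (M.v o).pl hO).InvD e ∧ ((gaK F 3).res (M.v o).pl hO).InvV v ∧
    ∀ t, (M.v o).v t = 1 → ∃ v' y g,
      ((gaK F 3).res (M.v o).pl hO).StarP e v (b.eval (-(la : ℂ)))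
        (Set.range fun l => (M.v o).pl.π (xx 3 l)) ((M.v o).pl.π (ip 3 f / t ^ M.a o)) (M.a o)
        v' y g

/-- Invariant divisors of exponent zero have invariant frames. -/
def SSTAR : Prop := ∀ (f : Po 3) (la : ℚ) (b : Polynomial ℂ) (β : Fin 3 → PX 3 (KK 3))
  (Q : PX 3 (KK 3)) (W : Set (Po 3)) (M : Mod 3) (o : M.J), Hyp f la b β Q → HypG F la b β Q →
  FxP F f → StM F f W M → M.ex la o = 0 → ∀ hO, Frs F f la b β M o hO

variable (p : ℕ) [Fact p.Prime] [Algebra ℚ_[p] ℂ] [Algebra.IsAlgebraic ℚ_[p] ℂ]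

/-- Stable models carry families of boxes. -/
def SBX : Prop := ∀ (f₀ : Po 3) (W : Set (Po 3)) (M : Mod 3) (f : (AK p).fix),
  StM ℚ_[p] f₀ W M → FxP ℚ_[p] f₀ → (f : KK 3) = ip 3 f₀ → HasFam p f₀ f M

/-- Invariant frames kill the poles. -/
def SBK : Prop := ∀ (f : MvPolynomial (Fin 3) ℤ) (la : ℚ) (b : Polynomial ℂ)
  (β : Fin 3 → PX 3 (KK 3)) (Q : PX 3 (KK 3)) (M : Mod 3) (T : ℂ),
  Hyp (map (Int.castRingHom ℂ) f) la b β Q → HypG ℚ_[p] la b β Q →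
  M.OK (map (Int.castRingHom ℂ) f) → HasFam p (map (Int.castRingHom ℂ) f) (fK p f) M →
  (∀ o, M.ex la o = 0 → ∀ hO, Frs ℚ_[p] (map (Int.castRingHom ℂ) f) la b β M o hO) →
  ‖T‖ = (p : ℝ) ^ (la : ℝ) → ∃ D P : Polynomial ℂ, D.eval T ≠ 0 ∧
    (D : PowerSeries ℂ) * (poincare f p).map (algebraMap ℚ ℂ) = P

/-- The theorem. -/
def Main : Prop := ∀ (f : MvPolynomial (Fin 3) ℤ), f ≠ 0 → ∀ p : ℕ, p.Prime →
  (∃ A B : Polynomial ℚ, IsCoprime A B ∧ (B : PowerSeries ℚ) * poincare f p = A) ∧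
  ∀ A B : Polynomial ℚ, IsCoprime A B → (B : PowerSeries ℚ) * poincare f p = A →
    ∀ T : ℂ, Polynomial.aeval T B = 0 → ∀ b : Polynomial ℂ,
      IsBFunction (map (Int.castRingHom ℂ) f) b →
      b.eval ((-(Real.log ‖T‖ / Real.log p) : ℝ) : ℂ) = 0

theorem top (hB : SB1R) (hI : RIGU) (hBS : SBS)
    (h : ∀ (p : ℕ) [Fact p.Prime] [Algebra ℚ_[p] ℂ] [Algebra.IsAlgebraic ℚ_[p] ℂ],
      SSTAR ℚ_[p] ∧ SBX p ∧ SCOV0 p ∧ SBK p) : Main := by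
  intro f h0 p hp
  have : Fact p.Prime := ⟨hp⟩
  obtain ⟨_, _⟩ := exists_alg p
  obtain ⟨hS, hX, hC, hK⟩ := h p
  have h1 : map (Int.castRingHom ℂ) f ≠ 0 := fun e =>
    h0 (map_injective _ Int.cast_injective (e.trans (map_zero _).symm))
  obtain ⟨W, M, hM, -⟩ := hB ℚ_[p] 3 _ {1} h1 (fx_int f)
    (fun g hg σ => by rw [Finset.mem_singleton.1 hg, map_one]) ⟨0, by simp⟩
  have hF := hX _ W M (fK p f) hM (fx_int f) (coe_fK f)
  obtain ⟨h2, 𝓑, -⟩ := id hF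
  refine ⟨(igu hI hC h0 hM.ok h2 𝓑).1, fun A B hAB hP T hT b hb => ?_⟩
  by_contra hn
  suffices h3 : ∃ D P : Polynomial ℂ, D.eval T ≠ 0 ∧
      (D : PowerSeries ℂ) * (poincare f p).map (algebraMap ℚ ℂ) = P by
    obtain ⟨D, P, h4, h5⟩ := h3
    exact h4 (H48G.no_pole hAB hP hT h5)
  by_cases h3 : ∀ j, T ^ M.a j ≠ (p : ℂ) ^ (M.k j + 1)
  · exact igu_np hI hC h0 hM.ok h2 𝓑 (root_ne hAB hP hT) h3
  obtain ⟨j, hj⟩ := not_forall.1 h3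
  have h4 := norm_eq (hM.ok.pos j) (not_not.1 hj)
  rw [log_eq hp h4] at hn
  obtain ⟨β, Q, h5⟩ := hBS 3 _ b h1 (isBS_of hb)
  obtain ⟨b', β', Q', H, G⟩ := shyp (fx_int (p := p) f) ⟨h1, isBS_of hb, h5, hn⟩
  exact hK f _ b' β' Q' M T H G hM.ok hF
    (fun o ho => hS _ _ b' β' Q' W M o H G (fx_int f) hM ho) h4

end

end Pool.Agent.MP_5d9b3c_ag.P3
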