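import Pool.Agent.MP_5d9b3c_ag.P3.Low
import Pool.Agent.MP_5d9b3c_ag.P3.Star
import Pool.Agent.MP_5d9b3c_ag.P3X.SBX
import Pool.Agent.MP_5d9b3c_ag.P3X.Cov
import Pool.Agent.MP_5d9b3c_ag.P3D.Asm0
import Pool.Agent.MP_5d9b3c_ag.P3D.RCurB
import Pool.Agent.MP_5d9b3c_ag.P3D.RCrsB

/-! The assembly of all blocks. -/

namespace Pool.Agent.MP_5d9b3c_ag.P3

open Pool.Agent.MP_ee8c61_ag
open M3E (eout)

theorem main : Main :=
  top P3R.sb1R P3K.igu M3.sbs fun p _ _ _ =>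
    ⟨star _, P3D.sBX p eout, P3D.sCOV0 p eout,
      P3D.sbk_rows p eout M3L.scon (P3D.rCURb p) (P3D.rCRSb p)⟩

end Pool.Agent.MP_5d9b3c_ag.P3
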