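import Pool.Agent.MP_5d9b3c_ag.P3.Top
import Pool.Agent.MP_5d9b3c_ag.P3.Ext

/-! At most three variables. -/

namespace Pool.Agent.MP_5d9b3c_ag.P3

open MvPolynomial H72

theorem low (h : Main) {n : ℕ} (hn : n ≤ 3) {f : MvPolynomial (Fin n) ℤ} (h0 : f ≠ 0) {p : ℕ}
    (hp : p.Prime) {A B : Polynomial ℚ} (hAB : IsCoprime A B)
    (hP : (B : PowerSeries ℚ) * poincare f p = (A : PowerSeries ℚ)) {T : ℂ}
    (hT : Polynomial.aeval T B = 0) {b : Polynomial ℂ}
    (hb : IsBFunction (map (Int.castRingHom ℂ) f) b) :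
    b.eval ((-(Real.log ‖T‖ / Real.log p) : ℝ) : ℂ) = 0 := by
  let e : Fin n ⊕ Fin (3 - n) ≃ Fin 3 := finSumFinEquiv.trans (finCongr (by omega))
  have he : (e ∘ Sum.inl).Injective := e.injective.comp Sum.inl_injective
  refine (h (rename (e ∘ Sum.inl) f) (fun k => h0 (rename_injective _ he (k.trans
    (map_zero _).symm))) p hp).2 A B hAB (by rw [poincare_inl e f hp.ne_zero, hP]) T hT b ?_
  rw [map_rename]
  exact isBF_inj he hb

end Pool.Agent.MP_5d9b3c_ag.P3
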